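import Pool.Agent.X13.Rob.Final
import Pool.Agent.X13.Rob.Triple

/-!
# MP_6a9d64_co: the maximum number of survivors of bouncing robots is `2⌊(n-1)/3⌋`
-/

namespace Pool.Agent.Results.MP_6a9d64_co.SurvivorNumber

open Pool.Agent.X13.Rob

/-- `s(n) = 2⌊(n-1)/3⌋` for every `n ≥ 1`.
(1) In every history of every configuration of `n` robots the number of survivors is an even number
`2a` with `a = 0` or `3a + 1 ≤ n`, so it is at most `2⌊(n-1)/3⌋`; all survivors start in the same
direction, and no three living robots ever meet.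
(2) There is a configuration of `n` robots which has a history and such that each of its histories
has exactly `2⌊(n-1)/3⌋` survivors.
(3) Hence `2⌊(n-1)/3⌋` is the maximum of the number of survivors. -/
theorem result (n : ℕ) (_hn : 1 ≤ n) :
    (∀ (c : Config n) (r : Run c),
      (∃ a, r.survivors.card = 2 * a ∧ (a = 0 ∨ 3 * a + 1 ≤ n)) ∧
      r.survivors.card ≤ 2 * ((n - 1) / 3) ∧
      (∀ i ∈ r.survivors, ∀ j ∈ r.survivors, c.d i = c.d j) ∧
      (∀ k, ∀ i ∈ r.A k, ∀ j ∈ r.A k, ∀ l ∈ r.A k, i ≠ j → j ≠ l → i ≠ l →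
        Same (r.x (k+1) i) (r.x (k+1) j) → ¬ Same (r.x (k+1) j) (r.x (k+1) l))) ∧
    (∃ c : Config n, Nonempty (Run c) ∧ ∀ r : Run c, r.survivors.card = 2 * ((n - 1) / 3)) ∧
    IsGreatest {s : ℕ | ∃ (c : Config n) (r : Run c), r.survivors.card = s}
      (2 * ((n - 1) / 3)) := by
  refine ⟨fun c r => ⟨r.bound, r.bound', ?_, ?_⟩, exists_config n, ?_, ?_⟩
  · intro i hi j hj
    rcases c.unit i with h1 | h1 <;> rcases c.unit j with h2 | h2
    · rw [h1, h2]
    · have := r.same_type hj hi h2
      rw [this, h2]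
    · have := r.same_type hi hj h1
      rw [this, h1]
    · rw [h1, h2]
  · intro k i hi j hj l hl hij hjl hil h1
    exact r.no_triple k hi hj hl hij hjl hil h1
  · obtain ⟨c, ⟨r⟩, h⟩ := exists_config n
    exact ⟨c, r, h r⟩
  · rintro s ⟨c, r, rfl⟩
    exact r.bound'

end Pool.Agent.Results.MP_6a9d64_co.SurvivorNumber
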